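import Pool.Agent.Lib.MP_722186_nt.Final

/-!
# MP_722186_nt: disproof of the virtually Golod–Shafarevich conjecture as posed

There is an imaginary quadratic field `K` (namely `ℚ(√-D)`, `D` a product of ten primes) and an
infinite everywhere unramified pro-`2` extension `L/K` such that `H²(U, 𝔽₂)` is infinite for every
open subgroup `U` of `Gal(L/K)`.
-/

set_option autoImplicit false

namespace Pool.Agent.Results.MP_722186_nt.InfiniteRelationRank

open NumberField Pool.Agent.Lib.MP_722186_nt

/-- The quotient of `Z` by (the part in `Z` of) `B` is finite-dimensional. -/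
def FinQuot {R V : Type*} [Ring R] [AddCommGroup V] [Module R V] (Z B : Submodule R V) : Prop :=
  Module.Finite R (Z ⧸ B.submoduleOf Z)

/-- `H²(G, 𝔽_p)` is finite-dimensional, that is, the relation rank of `G` is finite. -/
def RelRankFinite (p : ℕ) (G : Type*) [Group G] [TopologicalSpace G] : Prop :=
  FinQuot (Z2 p G) (B2 p G)

/-- The relation rank of every open subgroup of `G` is infinite. -/
def OpenRelRankInfinite (p : ℕ) (G : Type*) [Group G] [TopologicalSpace G] : Prop :=
  ∀ U : Subgroup G, IsOpen (U : Set G) → ¬ RelRankFinite p U

/-- `L/K` is an infinite Galois extension with pro-`p` Galois group in which no prime of `K`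
ramifies, and the relation rank of every open subgroup of `Gal(L/K)` is infinite. -/
structure IsCounterexample (p : ℕ) (K L : Type*) [Field K] [Field L] [Algebra K L] : Prop where
  tame : IsTamePro K L p
  unramified : UnramExt K L
  rank : OpenRelRankInfinite p (L ≃ₐ[K] L)

/-- There are an imaginary quadratic field `K` and an everywhere unramified infinite pro-`2`
Galois extension `L/K` (so `p = 2`, no prime ramifies) such that every open subgroup of `Gal(L/K)`
has infinite relation rank. -/
theorem result :
    ∃ (K : Type) (_ : Field K) (_ : NumberField K) (L : IntermediateField K (AlgebraicClosure K)),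
      Module.finrank ℚ K = 2 ∧ IsTotallyComplex K ∧ IsCounterexample 2 K L := by
  obtain ⟨L, h1, h2, h3⟩ := counterexample
  exact ⟨KD, inferInstance, inferInstance, L, imQuad_KD.rank, imQuad_KD.isTotallyComplex,
    ⟨h1, h2, h3⟩⟩

end Pool.Agent.Results.MP_722186_nt.InfiniteRelationRank
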